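import Pool.Agent.H.MP_eb4995_an.A
import Pool.Agent.H.MP_d01728_an.B

set_option linter.unusedSectionVars false
set_option linter.dupNamespace false

namespace Pool.Agent.H.MP_21f5b8_an

open MeasureTheory Filter Topology Set Metric Pool.Agent.Lib.helper10.H10 Pool.Agent.H.MP_eb4995_an
open scoped ENNReal NNReal

attribute [local instance] fact4 fact6 fact2

variable {Ω : Set (E 3)} {φ ψ : E 3 → ℝ} {l : ℝ} {J : Hs Ω →L[ℝ] L4}

lemma cpt (hΩ : Bornology.IsBounded Ω) (hJ : ∀ p, J p =ᵐ[volume] p.1.1) {φ : ℕ → E 3 → ℝ}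
    (hφ : ∀ n, Test Ω (φ n)) {U : ℝ} (hU : ∀ n, Dt (φ n) ≤ U) : ∃ κ : ℕ → ℕ, StrictMono κ ∧
    Tendsto (fun p : ℕ × ℕ => ‖J (pair (hφ (κ p.1)) - pair (hφ (κ p.2)))‖) atTop (𝓝 0) := by
  obtain ⟨J2, C2, hJ2, hC2⟩ := exists_J (N := 3) (by norm_num) hΩ 2 (by norm_num)
  obtain ⟨J6, C6, hJ6, hC6⟩ := exists_J (N := 3) (by norm_num) hΩ 6 (by norm_num)
  have hn : ∀ n, ‖(pair (hφ n)).1.2‖ ^ 2 ≤ U := fun n => by
    rw [pair_norm_snd]; exact hU n
  have hu0 : 0 ≤ U := le_trans (sq_nonneg _) (hn 0)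
  have hP : ∀ p : Hs Ω, ‖p.1.1‖ ^ 2 ≤ C2 ^ 2 * ‖p.1.2‖ ^ 2 := by
    intro p
    have e : ‖p.1.1‖ = ‖J2 p‖ := by
      rw [Lp.norm_def, Lp.norm_def, eLpNorm_congr_ae (hJ2 p)]; rfl
    rw [e, ← mul_pow]
    gcongr
    exact hC2 p
  obtain ⟨κ, hκ, hR⟩ := Pool.Agent.Lib.helper10.Rellich.rellich volume hΩ (fun n => (hφ n).c1)
    (fun n => subset_closure.trans (hφ n).2.2) (C := (C2 ^ 2 + 1) * U)
    (fun n => by
      rw [← pair_norm_fst (hφ n)]
      nlinarith [hP (pair (hφ n)), hn n, sq_nonneg C2])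
    (fun n => by
      have := hn n
      rw [pair_norm_snd] at this
      change Dt (φ n) ≤ _
      nlinarith [sq_nonneg C2])
  set P : ℕ → Hs Ω := fun n => pair (hφ (κ n)) with hPd
  have hsub : ∀ n m, ‖(P n - P m).1.2‖ ^ 2 ≤ 4 * U := by
    intro n m
    have a := norm_sub_le (P n).1.2 (P m).1.2
    have b := hn (κ n)
    have c := hn (κ m)
    change ‖(P n).1.2 - (P m).1.2‖ ^ 2 ≤ _
    have d : ‖(P n).1.2 - (P m).1.2‖ ^ 2 ≤ (‖(P n).1.2‖ + ‖(P m).1.2‖) ^ 2 := by gcongr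
    nlinarith [sq_nonneg (‖(P n).1.2‖ - ‖(P m).1.2‖)]
  set K := (C6 ^ 2 * (4 * U)) ^ 3 with hK
  have hK0 : 0 ≤ K := by positivity
  have t4 : Tendsto (fun p : ℕ × ℕ => ‖J (P p.1 - P p.2)‖ ^ 4) atTop (𝓝 0) := by
    refine tendsto_order.2 ⟨fun a ha => Eventually.of_forall fun p => ha.trans_le (by positivity),
      fun ε hε => ?_⟩
    set δ := ε / (K + 1) with hδ
    have hδ0 : 0 < δ := by positivity
    filter_upwards [hR.eventually (gt_mem_nhds (show 0 < δ * ε by positivity))] with p hp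
    have e := pair_sub (hφ (κ p.1)) (hφ (κ p.2)) (P p.1 - P p.2) rfl
    set w : E 3 → ℝ := fun y => φ (κ p.1) y - φ (κ p.2) y with hw
    have hwt : Test Ω w := by
      have := (hφ (κ p.1)).add ((hφ (κ p.2)).smul (-1))
      convert this using 1
      ext y; simp [hw, sub_eq_add_neg]
    have e4 : ‖J (P p.1 - P p.2)‖ ^ 4 = ∫ x, w x ^ 4 := by
      rw [L4_norm]
      refine integral_congr_ae ?_
      filter_upwards [hJ (P p.1 - P p.2), e] with x h1 h2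
      rw [h1, h2]
    have e6 : ∫ x, w x ^ 6 ≤ K := by
      have : ‖J6 (P p.1 - P p.2)‖ ^ 6 = ∫ x, w x ^ 6 := by
        rw [norm_pow_even (by norm_num) (by decide) (by norm_num)]
        refine integral_congr_ae ?_
        filter_upwards [hJ6 (P p.1 - P p.2), e] with x h1 h2
        rw [h1, h2]
      rw [← this, show (6 : ℕ) = 2 * 3 from rfl, pow_mul, hK]
      gcongr
      calc ‖J6 (P p.1 - P p.2)‖ ^ 2 ≤ (C6 * ‖(P p.1 - P p.2).1.2‖) ^ 2 := by
            gcongr; exact hC6 _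
        _ ≤ _ := by rw [mul_pow]; gcongr; exact hsub _ _
    have i2 : Integrable fun x => w x ^ 2 := (hwt.memLp 2).integrable_sq
    have i6 : Integrable fun x => w x ^ 6 := intk hwt (by norm_num)
    have e7 : 2 * δ * ∫ x, w x ^ 4 ≤ (∫ x, w x ^ 2) + δ ^ 2 * ∫ x, w x ^ 6 := by
      rw [← integral_const_mul, ← integral_const_mul, ← integral_add i2 (i6.const_mul _)]
      refine integral_mono ((int4 hwt).const_mul _) (i2.add (i6.const_mul _)) fun x => ?_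
      simp only
      nlinarith [sq_nonneg (w x - δ * w x ^ 3)]
    have e8 : δ * K ≤ ε := by
      rw [hδ, div_mul_eq_mul_div, div_le_iff₀ (by positivity)]; nlinarith
    rw [e4]
    change ∫ x, w x ^ 2 < δ * ε at hp
    have e9 : δ * (2 * ∫ x, w x ^ 4) < δ * (2 * ε) := by
      nlinarith [mul_le_mul_of_nonneg_left e6 (sq_nonneg δ), mul_le_mul_of_nonneg_left e8 hδ0.le]
    have := lt_of_mul_lt_mul_left e9 hδ0.le
    linarith
  have t1 : Tendsto (fun p : ℕ × ℕ => ‖J (P p.1 - P p.2)‖) atTop (𝓝 0) := by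
    have := t4.sqrt.sqrt
    simp only [Real.sqrt_zero] at this
    refine this.congr fun p => ?_
    rw [show (4 : ℕ) = 2 * 2 from rfl, pow_mul, Real.sqrt_sq (by positivity),
      Real.sqrt_sq (by positivity)]
  exact ⟨κ, hκ, t1⟩

theorem euler' (hJ : ∀ p, J p =ᵐ[volume] p.1.1) (hl : 0 < l) {p : Hs Ω}
    (p1 : ‖J p‖ = 1) (p2 : ‖p.1.2‖ ^ 2 = l) (h : Test Ω ψ)
    (hI : ∀ᶠ t in 𝓝 (0 : ℝ), l * ‖J (p + t • pair h)‖ ^ 2 ≤ ‖(p + t • pair h).1.2‖ ^ 2) :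
    ∫ x, inner ℝ (p.1.2 x) (gradient ψ x) = l * ∫ x, p.1.1 x ^ 3 * ψ x := by
  set u : E 3 → ℝ := ⇑p.1.1 with hu
  have iu : Integrable fun x => u x ^ 4 := by
    have := (Lp.memLp (J p)).integrable_norm_rpow (by simp) (by simp)
    refine this.congr ?_
    filter_upwards [hJ p] with x hx
    rw [hx]
    simp [(by decide : Even 4).pow_abs, hu]
  have hm : AEStronglyMeasurable u volume := Lp.aestronglyMeasurable _
  have hm' := h.cont.aestronglyMeasurable (μ := volume)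
  have ij : ∀ i j : ℕ, i + j = 4 → Integrable fun x => u x ^ i * ψ x ^ j := by
    intro i j hij
    refine (iu.add (int4 h)).mono' ((hm.pow i).mul (hm'.pow j)) (Eventually.of_forall fun x => ?_)
    have e1 : |u x| ^ i * |ψ x| ^ j ≤ max |u x| |ψ x| ^ 4 := by
      rw [← hij, pow_add]
      gcongr
      · exact le_max_left _ _
      · exact le_max_right _ _
    have e2 : max |u x| |ψ x| ^ 4 ≤ u x ^ 4 + ψ x ^ 4 := by
      have : 0 ≤ u x ^ 4 := by positivity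
      have : 0 ≤ ψ x ^ 4 := by positivity
      rcases max_choice |u x| |ψ x| with h | h <;> rw [h, (by decide : Even 4).pow_abs] <;> linarith
    simpa [abs_mul, abs_pow] using e1.trans e2
  set a := inner ℝ p.1.2 (pair h).1.2 with ha
  have ea : ∫ x, inner ℝ (p.1.2 x) (gradient ψ x) = a := by
    rw [ha, L2.inner_def]
    refine integral_congr_ae ?_
    filter_upwards [pair_snd h] with x hx
    rw [hx]
  set c := ‖(pair h).1.2‖ ^ 2
  set m1 := ∫ x, u x ^ 3 * ψ x ^ 1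
  set m2 := ∫ x, u x ^ 2 * ψ x ^ 2
  set m3 := ∫ x, u x ^ 1 * ψ x ^ 3
  set m4 := ∫ x, u x ^ 0 * ψ x ^ 4
  have m0 : ∫ x, u x ^ 4 * ψ x ^ 0 = 1 := by
    have := L4_norm (J p)
    rw [p1, one_pow] at this
    rw [this]
    refine integral_congr_ae ?_
    filter_upwards [hJ p] with x hx
    rw [hx]; simp [hu]
  have key : ∀ᶠ t in 𝓝 (0 : ℝ), 0 ≤ (l + 2 * t * a + t ^ 2 * c) ^ 2
      - l ^ 2 * (1 + 4 * t * m1 + 6 * t ^ 2 * m2 + 4 * t ^ 3 * m3 + t ^ 4 * m4) := by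
    filter_upwards [hI] with t b1
    have b2 : ‖(p + t • pair h).1.2‖ ^ 2 = l + 2 * t * a + t ^ 2 * c := by
      change ‖p.1.2 + t • (pair h).1.2‖ ^ 2 = _
      rw [norm_add_sq_real, p2, inner_smul_right, norm_smul, mul_pow, Real.norm_eq_abs, sq_abs]
      ring
    have b3 : ‖J (p + t • pair h)‖ ^ 4
        = 1 + 4 * t * m1 + 6 * t ^ 2 * m2 + 4 * t ^ 3 * m3 + t ^ 4 * m4 := by
      rw [L4_norm, ← m0, ← integral_const_mul, ← integral_const_mul, ← integral_const_mul,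
        ← integral_const_mul, ← integral_add, ← integral_add, ← integral_add, ← integral_add]
      · refine integral_congr_ae ?_
        rw [map_add, map_smul]
        filter_upwards [Lp.coeFn_add (J p) (t • J (pair h)), Lp.coeFn_smul t (J (pair h)), hJ p,
          hJ (pair h), pair_fst h] with x h1 h2 h3 h4 h5
        rw [h1, Pi.add_apply, h2, Pi.smul_apply, h3, h4, h5, smul_eq_mul]
        ring
      · exact (((ij 4 0 rfl).add ((ij 3 1 rfl).const_mul _)).add ((ij 2 2 rfl).const_mul _)).add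
          ((ij 1 3 rfl).const_mul _)
      · exact (ij 0 4 rfl).const_mul _
      · exact ((ij 4 0 rfl).add ((ij 3 1 rfl).const_mul _)).add ((ij 2 2 rfl).const_mul _)
      · exact (ij 1 3 rfl).const_mul _
      · exact (ij 4 0 rfl).add ((ij 3 1 rfl).const_mul _)
      · exact (ij 2 2 rfl).const_mul _
      · exact ij 4 0 rfl
      · exact (ij 3 1 rfl).const_mul _
    rw [← b2, ← b3]
    have : (l * ‖J (p + t • pair h)‖ ^ 2) ^ 2 ≤ (‖(p + t • pair h).1.2‖ ^ 2) ^ 2 := by gcongr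
    nlinarith
  have hd : HasDerivAt (fun t : ℝ => (l + 2 * t * a + t ^ 2 * c) ^ 2
      - l ^ 2 * (1 + 4 * t * m1 + 6 * t ^ 2 * m2 + 4 * t ^ 3 * m3 + t ^ 4 * m4))
      (4 * l * a - 4 * l ^ 2 * m1) 0 := by
    have i := hasDerivAt_id (0 : ℝ)
    have := (((((i.const_mul 2).mul_const a).const_add l).add ((i.pow 2).mul_const c)).pow 2).sub
      ((((((((i.const_mul 4).mul_const m1).const_add 1).add
        (((i.pow 2).const_mul 6).mul_const m2)).add (((i.pow 3).const_mul 4).mul_const m3)).add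
          ((i.pow 4).mul_const m4))).const_mul (l ^ 2))
    refine this.congr_deriv ?_
    simp; ring
  have hz := IsLocalMin.hasDerivAt_eq_zero (key.mono fun t ht => by
    simpa using ht) hd
  rw [ea]
  have : l * (a - l * m1) = 0 := by linarith
  have := (mul_eq_zero.1 this).resolve_left hl.ne'
  simp only [m1, pow_one] at this
  linarith

lemma pair_lin (h : Test Ω φ) (h' : Test Ω ψ) (t : ℝ) :
    pair (h.add (h'.smul t)) = pair h + t • pair h' := by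
  refine Subtype.ext (Prod.ext (Lp.ext ?_) (Lp.ext ?_))
  · refine (pair_fst _).trans (EventuallyEq.symm ((Lp.coeFn_add _ _).trans ?_))
    exact (pair_fst h).add ((Lp.coeFn_smul _ _).trans ((pair_fst h').const_smul t))
  · refine (pair_snd _).trans (EventuallyEq.symm ((Lp.coeFn_add _ _).trans ?_))
    rw [h.grad_add (h'.smul t), h'.grad_smul]
    exact (pair_snd h).add ((Lp.coeFn_smul _ _).trans ((pair_snd h').const_smul t))

noncomputable def F (δ t : ℝ) : ℝ := G δ t + G δ (-t)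

lemma F_smooth {δ : ℝ} (hδ : 0 < δ) : ContDiff ℝ (⊤ : ℕ∞) (F δ) :=
  (G_smooth hδ).add ((G_smooth hδ).comp contDiff_neg)

lemma F_zero {δ : ℝ} (hδ : 0 < δ) : F δ 0 = 0 := by simp [F, G_zero hδ]

lemma F_bd {δ : ℝ} (hδ : 0 < δ) (t : ℝ) : 0 ≤ F δ t ∧ F δ t ≤ |t| := by
  have h1 : δ ≤ √(t ^ 2 + δ ^ 2) := Real.le_sqrt_of_sq_le (by nlinarith)
  have h2 : √(t ^ 2 + δ ^ 2) ≤ |t| + δ :=
    Real.sqrt_le_iff.2 ⟨by positivity, by nlinarith [sq_abs t, abs_nonneg t]⟩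
  simp only [F, G, neg_sq]
  constructor <;> linarith

lemma F_4 {δ : ℝ} (hδ : 0 < δ) (t : ℝ) : F δ t ^ 4 ≤ t ^ 4 := by
  rw [← (by decide : Even 4).pow_abs t]
  exact pow_le_pow_left₀ (F_bd hδ t).1 (F_bd hδ t).2 4

lemma F_int (h : Test Ω φ) : Tendsto (fun n : ℕ => ∫ x, (F (1 / (n + 1)) ∘ φ) x ^ 4) atTop
    (𝓝 (∫ x, φ x ^ 4)) := by
  refine tendsto_integral_of_dominated_convergence (fun x => φ x ^ 4) (fun n => ?_) (int4 h)
    (fun n => Eventually.of_forall fun x => ?_) (Eventually.of_forall fun x => ?_)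
  · exact (((F_smooth (by positivity)).continuous.comp h.cont).pow 4).aestronglyMeasurable
  · rw [Real.norm_of_nonneg (by positivity)]
    exact F_4 (by positivity) _
  · have := ((G_tendsto (φ x)).add (G_tendsto (-φ x))).pow 4
    rwa [max_zero_add_max_neg_zero_eq_abs_self, (by decide : Even 4).pow_abs] at this

lemma F_Dt (h : Test Ω φ) {δ : ℝ} (hδ : 0 < δ) : Dt (F δ ∘ φ) ≤ Dt φ := by
  refine integral_mono (intD (h.comp (F_smooth hδ) (F_zero hδ))) (intD h) fun x => ?_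
  have d : HasDerivAt (F δ) _ (φ x) :=
    (G_deriv hδ (φ x)).add ((G_deriv hδ (-φ x)).comp (φ x) (hasDerivAt_neg (φ x)))
  simp only
  rw [(d.comp_hasFDerivAt x (h.diff x).hasFDerivAt).fderiv]
  simp only [norm_smul, mul_pow, Real.norm_eq_abs, sq_abs, neg_sq]
  set s := φ x / √(φ x ^ 2 + δ ^ 2) with hs
  have h1 : s ^ 2 ≤ 1 := by
    rw [hs, div_pow, Real.sq_sqrt (by positivity), div_le_one (by positivity)]
    nlinarith
  rw [neg_div, ← hs]
  nlinarith [sq_nonneg ‖fderiv ℝ φ x‖]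

lemma nrm (h : Test Ω φ) (h0 : ∫ x, φ x ^ 4 ≠ 0) : ∃ c : ℝ, 0 < c ∧ c ^ 2 * √(∫ x, φ x ^ 4) = 1 ∧
    c ^ 4 * ∫ x, φ x ^ 4 = 1 ∧ (∀ T, ∫ x in T, (c • φ) x ^ 4 = c ^ 4 * ∫ x in T, φ x ^ 4) ∧
      ∫ x, (c • φ) x ^ 4 = 1 := by
  obtain ⟨c, h1, -, -⟩ := normalize h h0
  have c0 : c ≠ 0 := by rintro rfl; simp at h1
  have e : |c| ^ 4 = c ^ 4 := (by decide : Even 4).pow_abs c
  have k : ∀ μ : Measure (E 3), ∫ x, (|c| • φ) x ^ 4 ∂μ = |c| ^ 4 * ∫ x, φ x ^ 4 ∂μ := fun μ => by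
    simp only [Pi.smul_apply, smul_eq_mul, mul_pow, integral_const_mul]
  refine ⟨|c|, abs_pos.2 c0, ?_, by rw [e, h1], fun T => k _, by rw [k, e, h1]⟩
  have := congrArg Real.sqrt h1
  rwa [Real.sqrt_mul (by positivity), show c ^ 4 = (|c| ^ 2) ^ 2 by rw [← e]; ring,
    Real.sqrt_sq (by positivity), Real.sqrt_one] at this

lemma add4 (h : Test Ω φ) (h' : Test Ω ψ) (T : Set (E 3)) :
    ∫ x in T, (φ + ψ) x ^ 4 ≤ 8 * (∫ x in T, φ x ^ 4) + 8 * ∫ x in T, ψ x ^ 4 := by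
  rw [← integral_const_mul, ← integral_const_mul, ← integral_add
    ((int4 h).integrableOn.const_mul _) ((int4 h').integrableOn.const_mul _)]
  refine integral_mono (int4 (h.add h')).integrableOn (((int4 h).integrableOn.const_mul _).add
    ((int4 h').integrableOn.const_mul _)) fun x => ?_
  simp only [Pi.add_apply]
  nlinarith [sq_nonneg (φ x ^ 2 - ψ x ^ 2), sq_nonneg ((φ x - ψ x) ^ 2),
    mul_nonneg (sq_nonneg (φ x - ψ x)) (sq_nonneg (φ x + ψ x))]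

theorem locmin (hΩ : Bornology.IsBounded Ω) (hJ : ∀ p, J p =ᵐ[volume] p.1.1) (T : Set (E 3))
    {ε m L : ℝ} (ε0 : 0 < ε) (ε1 : ε ≤ 1) (L0 : 0 < L)
    (h0 : ∃ φ, Test Ω φ ∧ 0 ≤ φ ∧ ∫ x, φ x ^ 4 = 1 ∧ ∫ x in T, φ x ^ 4 ≤ ε ∧ Dt φ < m)
    (hb : ∀ φ, Test Ω φ → 0 ≤ φ → ∫ x, φ x ^ 4 = 1 → ε / 128 ≤ ∫ x in T, φ x ^ 4 →
      ∫ x in T, φ x ^ 4 ≤ ε → m ≤ Dt φ)
    (hL : ∀ φ, Test Ω φ → ∫ x, φ x ^ 4 = 1 → ∫ x in T, φ x ^ 4 ≤ ε → L ≤ Dt φ) :
    ∃ l, L ≤ l ∧ ∃ p : Hs Ω, 0 ≤ p.1.1 ∧ ‖J p‖ = 1 ∧ ∀ ψ, Test Ω ψ →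
      ∫ x, inner ℝ (p.1.2 x) (gradient ψ x) = l * ∫ x, p.1.1 x ^ 3 * ψ x := by
  set S := {d | ∃ φ, Test Ω φ ∧ 0 ≤ φ ∧ ∫ x, φ x ^ 4 = 1 ∧ ∫ x in T, φ x ^ 4 ≤ ε ∧ d = Dt φ}
    with hS
  obtain ⟨φ₀, t0, n0, a0, b0, d0⟩ := h0
  have hS1 : S.Nonempty := ⟨_, φ₀, t0, n0, a0, b0, rfl⟩
  have hS2 : ∀ d ∈ S, L ≤ d := by rintro _ ⟨φ, h, -, a, b, rfl⟩; exact hL φ h a b
  set l := sInf S with hl
  have hl0 : L ≤ l := le_csInf hS1 hS2
  have l0 := L0.trans_le hl0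
  have lm : l < m := (csInf_le ⟨L, hS2⟩ ⟨φ₀, t0, n0, a0, b0, rfl⟩).trans_lt d0
  have hI : ∀ φ (h : Test Ω φ), ∫ x in T, φ x ^ 4 < ε * ∫ x, φ x ^ 4 →
      l * ‖J (pair h)‖ ^ 2 ≤ ‖(pair h).1.2‖ ^ 2 := by
    intro φ h hc
    rw [J_sq hJ, pair_norm_snd]
    refine le_of_tendsto ((F_int h).sqrt.const_mul l) ?_
    filter_upwards [((F_int h).const_mul ε).eventually (lt_mem_nhds hc)] with n hn
    have hδ : (0 : ℝ) < 1 / (n + 1) := by positivity
    have h' := h.comp (F_smooth hδ) (F_zero hδ)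
    have b : ∫ x in T, (F (1 / (n + 1)) ∘ φ) x ^ 4 ≤ ∫ x in T, φ x ^ 4 :=
      integral_mono (int4 h').integrableOn (int4 h).integrableOn fun x => F_4 hδ _
    have b' : 0 ≤ ∫ x in T, φ x ^ 4 := integral_nonneg fun x => by positivity
    obtain ⟨c, c0, c1, c2, c3, c4⟩ := nrm h' fun e => by rw [e] at hn; linarith
    have := csInf_le ⟨L, hS2⟩ (show _ ∈ S from ⟨_, h'.smul c,
      smul_nonneg c0.le fun x => (F_bd hδ _).1, c4, by
        rw [c3]; nlinarith [mul_lt_mul_of_pos_left (b.trans_lt hn) (pow_pos c0 4)], rfl⟩)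
    rw [Dt_smul h'] at this
    refine le_trans (le_of_mul_le_mul_left ?_ (pow_pos c0 2)) (F_Dt h hδ)
    rw [mul_left_comm, c1, mul_one]
    exact this
  obtain ⟨u', hu1, hu2, hu3⟩ := exists_seq_tendsto_sInf hS1 ⟨L, hS2⟩
  obtain ⟨n₀, hn₀⟩ := (hu2.eventually (gt_mem_nhds lm)).exists
  choose φ hφ hn h4 hT hD using fun n => hu3 (n + n₀)
  have hm : ∀ n, Dt (φ n) < m := fun n => hD n ▸ (hu1 (Nat.le_add_left _ _)).trans_lt hn₀
  have hB : ∀ n, ∫ x in T, φ n x ^ 4 < ε / 128 := fun n =>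
    not_le.1 fun h => (hm n).not_ge (hb _ (hφ n) (hn n) (h4 n) h (hT n))
  obtain ⟨κ, hκ, t1⟩ := cpt hΩ hJ hφ fun n => (hm n).le
  obtain ⟨J2, C2, hJ2, hC2⟩ := exists_J (N := 3) (by norm_num) hΩ 2 (by norm_num)
  have hP : ∀ p : Hs Ω, ‖p.1.1‖ ^ 2 ≤ C2 ^ 2 * ‖p.1.2‖ ^ 2 := by
    intro p
    have e : ‖p.1.1‖ = ‖J2 p‖ := by
      rw [Lp.norm_def, Lp.norm_def, eLpNorm_congr_ae (hJ2 p)]; rfl
    rw [e, ← mul_pow]
    gcongr
    exact hC2 p
  set P : ℕ → Hs Ω := fun n => pair (hφ (κ n)) with hPd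
  have hJ1 : ∀ n, ‖J (P n)‖ = 1 := by
    intro n
    have := J_sq hJ (hφ (κ n))
    rw [h4, Real.sqrt_one] at this
    exact (pow_eq_one_iff_of_nonneg (norm_nonneg _) two_ne_zero).1 this
  have a1 : Tendsto (fun p : ℕ × ℕ => p.1) atTop atTop := by
    rw [← prod_atTop_atTop_eq]; exact tendsto_fst
  have a2 : Tendsto (fun p : ℕ × ℕ => p.2) atTop atTop := by
    rw [← prod_atTop_atTop_eq]; exact tendsto_snd
  have tu : Tendsto (fun n => ‖(P n).1.2‖ ^ 2) atTop (𝓝 l) :=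
    (hu2.comp ((tendsto_add_atTop_nat n₀).comp hκ.tendsto_atTop)).congr fun n => by
      simp only [Function.comp, hPd]; rw [pair_norm_snd, hD]
  have t2 : Tendsto (fun p : ℕ × ℕ => ‖(P p.1 - P p.2).1.2‖ ^ 2) atTop (𝓝 0) := by
    have t3 := (((tu.comp a1).add (tu.comp a2)).const_mul 2).sub
      (((t1.const_mul 4).const_sub 4).const_mul l)
    rw [show 2 * (l + l) - l * (4 - 4 * 0) = 0 by ring] at t3
    refine squeeze_zero' (Eventually.of_forall fun _ => sq_nonneg _) ?_ t3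
    filter_upwards [t1.eventually (gt_mem_nhds one_pos)] with p hp
    have b4 : 2 ≤ ‖J (P p.1 + P p.2)‖ + ‖J (P p.1 - P p.2)‖ := by
      have := norm_add_le (J (P p.1 + P p.2)) (J (P p.1 - P p.2))
      rw [← map_add, show P p.1 + P p.2 + (P p.1 - P p.2) = (2 : ℝ) • P p.1 by module, map_smul,
        norm_smul, hJ1] at this
      simpa using this
    have e := (pair_lin (hφ (κ p.1)) (hφ (κ p.2)) 1).trans (congrArg _ (one_smul ℝ _))
    have b1 := hI _ ((hφ (κ p.1)).add ((hφ (κ p.2)).smul 1)) (by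
      have k := J_sq hJ ((hφ (κ p.1)).add ((hφ (κ p.2)).smul 1))
      rw [e] at k
      have k2 : 1 ≤ ‖J (P p.1 + P p.2)‖ := by linarith
      have k3 := Real.one_le_sqrt.1 ((one_le_pow₀ k2).trans_eq k)
      rw [one_smul] at k3 ⊢
      nlinarith [add4 (hφ (κ p.1)) (hφ (κ p.2)) T, hB (κ p.1), hB (κ p.2)])
    rw [e] at b1
    have b2 := parallelogram_law_with_norm ℝ (P p.1).1.2 (P p.2).1.2
    have b5 : 4 - 4 * ‖J (P p.1 - P p.2)‖ ≤ ‖J (P p.1 + P p.2)‖ ^ 2 := by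
      nlinarith [sq_nonneg (‖J (P p.1 + P p.2)‖ - 2)]
    have b6 := mul_le_mul_of_nonneg_left b5 l0.le
    change ‖(P p.1).1.2 - (P p.2).1.2‖ ^ 2 ≤ _
    change l * ‖J (P p.1 + P p.2)‖ ^ 2 ≤ ‖(P p.1).1.2 + (P p.2).1.2‖ ^ 2 at b1
    simp only [Function.comp]
    nlinarith
  have hc : CauchySeq P := by
    rw [cauchySeq_iff_tendsto_dist_atTop_0]
    have t3 := (t2.const_mul (C2 ^ 2 + 1)).sqrt
    simp only [mul_zero, Real.sqrt_zero] at t3
    refine squeeze_zero (fun _ => dist_nonneg) (fun p => Real.le_sqrt_of_sq_le ?_) t3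
    rw [dist_eq_norm]
    change ‖(P p.1 - P p.2).1‖ ^ 2 ≤ _
    have := hP (P p.1 - P p.2)
    rw [Prod.norm_def]
    rcases max_choice ‖(P p.1 - P p.2).1.1‖ ‖(P p.1 - P p.2).1.2‖ with h | h <;> rw [h] <;>
      nlinarith [sq_nonneg C2, sq_nonneg ‖(P p.1 - P p.2).1.2‖]
  obtain ⟨p, hp⟩ := cauchySeq_tendsto_of_complete hc
  have p1 : ‖J p‖ = 1 := tendsto_nhds_unique ((J.continuous.norm.tendsto p).comp hp)
    (tendsto_const_nhds.congr fun n => (hJ1 n).symm)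
  have p2 : ‖p.1.2‖ ^ 2 = l := tendsto_nhds_unique ((cont_snd.tendsto p).comp hp) tu
  refine ⟨l, hl0, p, ge_of_tendsto' (((continuous_fst.comp continuous_subtype_val).tendsto p).comp
    hp) fun n => (Lp.coeFn_nonneg _).1 ?_, p1, fun ψ h => euler' hJ l0 p1 p2 h ?_⟩
  · filter_upwards [pair_fst (hφ (κ n))] with x hx
    exact (hn (κ n) x).trans_eq hx.symm
  · have z : Tendsto (fun t : ℝ => t ^ 4 * ∫ x, ψ x ^ 4) (𝓝 0) (𝓝 0) := by
      simpa using ((continuous_pow 4).mul_const (∫ x, ψ x ^ 4)).tendsto (0 : ℝ)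
    filter_upwards [z.eventually (gt_mem_nhds (show 0 < ε / 256 by positivity))] with t ht
    have q := hp.add_const (t • pair h)
    refine le_of_tendsto_of_tendsto' ((((J.continuous.norm.pow 2).const_mul l).tendsto _).comp q)
      ((cont_snd.tendsto _).comp q) fun n => ?_
    have := hI _ ((hφ (κ n)).add (h.smul t)) (by
      have e : ∀ μ : Measure (E 3), ∀ s : ℝ, ∫ x, (s • ψ) x ^ 4 ∂μ = s ^ 4 * ∫ x, ψ x ^ 4 ∂μ :=
        fun μ s => by simp only [Pi.smul_apply, smul_eq_mul, mul_pow, integral_const_mul]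
      have k1 := add4 (hφ (κ n)) (h.smul t) T
      have k2 := add4 ((hφ (κ n)).add (h.smul t)) (h.smul (-t)) univ
      have k3 : ∫ x in T, ψ x ^ 4 ≤ ∫ x, ψ x ^ 4 :=
        setIntegral_le_integral (int4 h) (Eventually.of_forall fun x => by positivity)
      rw [show φ (κ n) + t • ψ + -t • ψ = φ (κ n) by module, Measure.restrict_univ, h4, e,
        (by decide : Even 4).neg_pow] at k2
      rw [e] at k1
      have k4 := mul_le_mul_of_nonneg_left k3 (show 0 ≤ t ^ 4 by positivity)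
      nlinarith [hB (κ n)])
    rwa [pair_lin] at this

end Pool.Agent.H.MP_21f5b8_an
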