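import Pool.Agent.H.MP_21f5b8_an.A
import Pool.Agent.H.MP_c1ff29_an.A

set_option linter.unusedSectionVars false
set_option linter.dupNamespace false

namespace Pool.Agent.H.MP_21f5b8_an

open MeasureTheory Filter Topology Set Metric Pool.Agent.Lib.helper10.H10 Pool.Agent.H.MP_eb4995_an
open scoped ENNReal NNReal
open Pool.Agent.H.MP_d01728_an (th th_c th0 th1 thd exK cm sm ims0 nsq)
open Pool.Agent.H.MP_c1ff29_an (dd ibp)

attribute [local instance] fact4 fact6 fact2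

variable {Ω : Set (E 3)} {φ ψ : E 3 → ℝ}

lemma thin (h : Test Ω φ) {I : Set ℝ} (hI : IsOpen I) {w : ℝ}
    (hw : ∀ p ∈ Ω, p 0 ∈ I → |p 1| ≤ w) : ∫ p in {p : E 3 | p 0 ∈ I}, φ p ^ 2 ≤ 4 * w ^ 2 * Dt φ := by
  have o : IsOpen {p : E 3 | p 0 ∈ I} := hI.preimage (by fun_prop)
  have c := h.cont
  have cd := h.c1.continuous_fderiv one_ne_zero
  have d1 : ∀ p : E 3, dd (EuclideanSpace.single 1 1) (fun p => p 1) p = 1 := fun p => by
    have : fderiv ℝ (fun p : E 3 => p 1) p = _ :=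
      (EuclideanSpace.proj (𝕜 := ℝ) (1 : Fin 3) : E 3 →L[ℝ] ℝ).fderiv
    simp [dd, this]
  have d2 : ∀ p : E 3, dd (EuclideanSpace.single 1 1) (fun p => φ p ^ 2) p =
      2 * fderiv ℝ φ p (EuclideanSpace.single 1 1) * φ p := fun p => by
    have : fderiv ℝ (fun p : E 3 => φ p ^ 2) p = _ := ((h.diff p).hasFDerivAt.pow 2).fderiv
    simp [dd, this]; ring
  have ii : ∀ g : E 3 → ℝ, Continuous g → Integrable fun p => g p * φ p := fun g cg =>
    (cg.mul c).integrable_of_hasCompactSupport h.2.1.mul_left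
  have i2 : Integrable fun p => φ p ^ 2 := intk h two_ne_zero
  have i3 : Integrable fun p : E 3 => p 1 * (2 * fderiv ℝ φ p (EuclideanSpace.single 1 1) * φ p) := by
    simp only [← mul_assoc]; exact ii _ (by fun_prop)
  have := ibp o (U := fun p => p 1) (k := fun p => φ p ^ 2) (EuclideanSpace.single 1 1)
    (h.c1.pow 2) (fun p _ => by fun_prop) (by simp only [d1, one_mul]; exact i2.integrableOn)
    (by simp only [d2]; exact i3.integrableOn)
    (by simp only [sq, ← mul_assoc]; exact (ii _ (by fun_prop)).integrableOn)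
    fun p _ hp => Eventually.of_forall fun t => by simpa using hp
  simp only [d1, d2, one_mul] at this
  have k := setIntegral_mono_on (f := fun p : E 3 => -(p 1 *
    (2 * fderiv ℝ φ p (EuclideanSpace.single 1 1) * φ p)))
    (g := fun p => 1 / 2 * φ p ^ 2 + 2 * w ^ 2 * ‖fderiv ℝ φ p‖ ^ 2) i3.neg.integrableOn
    ((i2.const_mul _).add ((intD h).const_mul _)).integrableOn o.measurableSet fun p hp => by
      by_cases hp' : p ∈ Ω
      · have h1 := sq_le_sq' (abs_le.1 (hw p hp' hp)).1 (abs_le.1 (hw p hp' hp)).2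
        have h2 : fderiv ℝ φ p (EuclideanSpace.single 1 1) ^ 2 ≤ ‖fderiv ℝ φ p‖ ^ 2 := by
          rw [nsq]; nlinarith [sq_nonneg (fderiv ℝ φ p (EuclideanSpace.single 0 1)),
            sq_nonneg (fderiv ℝ φ p (EuclideanSpace.single 2 1))]
        nlinarith [sq_nonneg (φ p + 2 * p 1 * fderiv ℝ φ p (EuclideanSpace.single 1 1)),
          mul_le_mul h1 h2 (sq_nonneg _) (sq_nonneg _)]
      · simp [(h.zero_off hp').1]; positivity
  rw [integral_neg, this, integral_add (i2.const_mul _).integrableOn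
    ((intD h).const_mul _).integrableOn, integral_const_mul, integral_const_mul] at k
  have := mul_le_mul_of_nonneg_left (setIntegral_le_integral (s := {p : E 3 | p 0 ∈ I}) (intD h)
    (Eventually.of_forall fun p => sq_nonneg _)) (sq_nonneg w)
  unfold Dt
  linarith

lemma interp (h : Test Ω φ) (S : Set (E 3)) (δ : ℝ) :
    2 * δ * ∫ x in S, φ x ^ 4 ≤ (∫ x in S, φ x ^ 2) + δ ^ 2 * ∫ x, φ x ^ 6 := by
  have i2 : Integrable fun x => φ x ^ 2 := intk h two_ne_zero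
  have i6 : Integrable fun x => φ x ^ 6 := intk h (by norm_num)
  refine le_trans ?_ (add_le_add_right (mul_le_mul_of_nonneg_left (setIntegral_le_integral (s := S)
    i6 (Eventually.of_forall fun p => by positivity)) (sq_nonneg δ)) _)
  rw [← integral_const_mul, ← integral_const_mul, ← integral_add i2.integrableOn
    (i6.const_mul _).integrableOn]
  refine integral_mono ((int4 h).const_mul _).integrableOn (i2.add (i6.const_mul _)).integrableOn
    fun x => ?_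
  simp only
  nlinarith [sq_nonneg (φ x - δ * φ x ^ 3)]

lemma c6 (hΩ : Bornology.IsBounded Ω) :
    ∃ C, 0 ≤ C ∧ ∀ φ, Test Ω φ → ∫ x, φ x ^ 6 ≤ C * Dt φ ^ 3 := by
  obtain ⟨J6, C6, hJ6, hC6⟩ := exists_J (N := 3) (by norm_num) hΩ 6 (by norm_num)
  refine ⟨C6 ^ 6, by positivity, fun φ h => ?_⟩
  have : ‖J6 (pair h)‖ ^ 6 = ∫ x, φ x ^ 6 := by
    rw [norm_pow_even (by norm_num) (by decide) (by norm_num)]
    refine integral_congr_ae ?_
    filter_upwards [hJ6 (pair h), pair_fst h] with x h1 h2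
    rw [h1, h2]
  rw [← this, ← pair_norm_snd h, ← pow_mul, ← mul_pow]
  exact pow_le_pow_left₀ (norm_nonneg _) (hC6 _) 6

lemma small {M η : ℝ} (M0 : 0 ≤ M) (η0 : 0 < η) : ∃ t, 0 < t ∧ t ≤ 1 ∧ t * M ≤ η :=
  ⟨min 1 (η / (M + 1)), by positivity, min_le_left _ _, by
    have := (le_div_iff₀ (show 0 < M + 1 by positivity)).1 (min_le_right 1 (η / (M + 1)))
    have : 0 < min 1 (η / (M + 1)) := by positivity
    nlinarith⟩

lemma tmul (h : Test Ω φ) {g : E 3 → ℝ} (hg : ContDiff ℝ (⊤ : ℕ∞) g) :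
    Test Ω fun p => g p * φ p :=
  ⟨hg.mul h.1, h.2.1.mul_left, (tsupport_mul_subset_right).trans h.2.2⟩

noncomputable def tt (c r x : ℝ) : ℝ := th (((x - c) / r) ^ 2 - 1)

lemma tt_c (c r : ℝ) : ContDiff ℝ (⊤ : ℕ∞) (tt c r) :=
  (contDiff_const.mul Real.smoothTransition.contDiff : ContDiff ℝ (⊤ : ℕ∞) th).comp (by fun_prop)

lemma tt_d (c r x : ℝ) :
    deriv (tt c r) x = deriv th (((x - c) / r) ^ 2 - 1) * (2 * ((x - c) / r) / r) := by
  have := ((th_c.differentiable one_ne_zero _).hasDerivAt).comp x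
    (((((hasDerivAt_id x).sub_const c).div_const r).fun_pow 2).sub_const 1)
  refine this.deriv.trans ?_
  simp [div_eq_mul_inv, mul_assoc]

lemma loc2 (h : Test Ω φ) (c : ℝ) {r K : ℝ} (r0 : 0 < r) (hK : ∀ x, deriv th x ^ 2 ≤ K)
    (n : 0 ≤ φ) : ∃ a b : E 3 → ℝ, Test Ω a ∧ Test Ω b ∧ 0 ≤ a ∧
      (∀ p, 3 / 2 * r ≤ |p 0 - c| → a p = 0) ∧ ∫ p, a p ^ 4 ≤ ∫ p, φ p ^ 4 ∧
      ∫ p in {p : E 3 | 3 / 2 * r ≤ |p 0 - c|}, φ p ^ 4 ≤ ∫ p, b p ^ 4 ∧
      ∫ p, φ p ^ 4 ≤ (∫ p, a p ^ 4) + (∫ p in {p : E 3 | 3 / 2 * r ≤ |p 0 - c|}, φ p ^ 4) +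
        (∫ p in {p : E 3 | p 0 ∈ {x | |x - c| ∈ Ioo (3 / 4 * r) (3 / 2 * r)}}, φ p ^ 4) ∧
      Dt a + Dt b ≤ Dt φ + 8 * K / r ^ 2 *
        ∫ p in {p : E 3 | p 0 ∈ {x | |x - c| ∈ Ioo (3 / 4 * r) (3 / 2 * r)}}, φ p ^ 2 := by
  have K0 : 0 ≤ K := (sq_nonneg _).trans (hK 0)
  have t : ContDiff ℝ (⊤ : ℕ∞) fun p : E 3 => tt c r (p 0) :=
    (tt_c c r).comp (EuclideanSpace.proj (𝕜 := ℝ) (0 : Fin 3) : E 3 →L[ℝ] ℝ).contDiff
  have ha : Test Ω (cm (tt c r) φ) := tmul h t.cos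
  have hb : Test Ω (sm (tt c r) φ) := tmul h t.sin
  have sq : ∀ x : ℝ, ((x - c) / r) ^ 2 = (|x - c| / r) ^ 2 := fun x => by
    rw [div_pow, div_pow, sq_abs]
  have big : ∀ x : ℝ, 3 / 2 * r ≤ |x - c| → tt c r x = Real.pi / 2 := fun x hx => by
    have := (le_div_iff₀ r0).2 hx
    exact th1 (by rw [sq]; nlinarith)
  have sml : ∀ x : ℝ, |x - c| ≤ 3 / 4 * r → ((x - c) / r) ^ 2 - 1 < 0 := fun x hx => by
    have := (div_le_iff₀ r0).2 hx
    have : 0 ≤ |x - c| / r := by positivity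
    rw [sq]; nlinarith
  have m1 : MeasurableSet {p : E 3 | 3 / 2 * r ≤ |p 0 - c|} :=
    (isClosed_le continuous_const (by fun_prop)).measurableSet
  have m2 : MeasurableSet {p : E 3 | p 0 ∈ {x | |x - c| ∈ Ioo (3 / 4 * r) (3 / 2 * r)}} :=
    (isOpen_Ioo.preimage (f := fun p : E 3 => |p 0 - c|) (by fun_prop)).measurableSet
  have i2 : Integrable fun x => φ x ^ 2 := intk h two_ne_zero
  refine ⟨_, _, ha, hb, fun p => mul_nonneg (Real.cos_nonneg_of_mem_Icc ⟨?_, ?_⟩) (n p),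
    fun p hp => by simp [cm, big _ hp], integral_mono (int4 ha) (int4 h) fun p => ?_, ?_, ?_, ?_⟩
  · have := mul_nonneg Real.pi_div_two_pos.le
      (Real.smoothTransition.nonneg (((p 0 - c) / r) ^ 2 - 1))
    exact (neg_nonpos.2 Real.pi_div_two_pos.le).trans this
  · exact mul_le_of_le_one_right Real.pi_div_two_pos.le (Real.smoothTransition.le_one _)
  · simp only [cm, mul_pow]
    refine mul_le_of_le_one_left (by positivity) ?_
    nlinarith [Real.cos_sq_le_one (tt c r (p 0)), sq_nonneg (Real.cos (tt c r (p 0)))]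
  · refine le_trans (le_of_eq (setIntegral_congr_fun m1 fun p hp => ?_))
      (setIntegral_le_integral (int4 hb) (Eventually.of_forall fun p => by positivity))
    simp [sm, big _ hp]
  · rw [← integral_indicator m1, ← integral_indicator m2, ← integral_add' (int4 ha)
      ((int4 h).indicator m1), ← integral_add' ((int4 ha).add ((int4 h).indicator m1))
      ((int4 h).indicator m2)]
    refine integral_mono (int4 h) (((int4 ha).add ((int4 h).indicator m1)).add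
      ((int4 h).indicator m2)) fun p => ?_
    have p4 : 0 ≤ φ p ^ 4 := by positivity
    have a4 : 0 ≤ cm (tt c r) φ p ^ 4 := by positivity
    simp only [Pi.add_apply, indicator_apply, mem_ofPred_eq, mem_Ioo]
    split_ifs with h1 h2 h2 <;> try linarith
    have : |p 0 - c| ≤ 3 / 4 * r := not_lt.1 fun h3 => h2 ⟨h3, not_le.1 h1⟩
    simp [cm, tt, th0 (sml _ this).le]
  · have c1 : ContDiff ℝ 1 (tt c r) := (tt_c c r).of_le (by exact_mod_cast le_top)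
    rw [Dt, Dt, Dt, ← integral_add (intD ha) (intD hb), ← integral_const_mul,
      ← integral_indicator m2, ← integral_add (intD h) ((i2.const_mul _).indicator m2)]
    refine integral_mono ((intD ha).add (intD hb)) ((intD h).add ((i2.const_mul _).indicator m2))
      fun p => ?_
    simp only [ims0 c1 h.c1 p, tt_d, indicator_apply, mem_ofPred_eq, mem_Ioo]
    by_cases h1 : ((p 0 - c) / r) ^ 2 - 1 ∈ Icc (0 : ℝ) 1
    · rw [if_pos ⟨not_le.1 fun h2 => (sml _ h2).not_ge h1.1, not_le.1 fun h2 => by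
        have := (le_div_iff₀ r0).2 h2
        have := h1.2
        rw [sq] at this
        nlinarith⟩]
      gcongr
      rw [mul_pow, div_pow (2 * _), mul_pow, mul_comm 8, mul_div_assoc K]
      exact mul_le_mul (hK _) (div_le_div_of_nonneg_right (by linarith [h1.2]) (sq_nonneg r))
        (by positivity) K0
    · rw [thd h1]
      split_ifs <;> simp
      positivity

def Good (Ω : Set (E 3)) (L : ℝ) : Prop := ∀ J : Hs Ω →L[ℝ] L4, (∀ p, J p =ᵐ[volume] p.1.1) →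
  ∃ l, L ≤ l ∧ ∃ p : Hs Ω, 0 ≤ p.1.1 ∧ ‖J p‖ = 1 ∧ ∀ ψ, Test Ω ψ →
    ∫ x, inner ℝ (p.1.2 x) (gradient ψ x) = l * ∫ x, p.1.1 x ^ 3 * ψ x

lemma low {L : ℝ} (L0 : 0 < L) : ∃ ρ > 0, ∀ (Ω : Set (E 3)) (c r : ℝ), 0 < r → r ≤ ρ →
    Ω ⊆ ball 0 2 → (∀ p ∈ Ω, |p 0 - c| < 3 / 2 * r → |p 1| ≤ r) → ∀ φ, Test Ω φ →
    ∫ x, φ x ^ 4 = 1 → ∫ p in {p : E 3 | 3 / 2 * r ≤ |p 0 - c|}, φ p ^ 4 ≤ 1 / 2 → L ≤ Dt φ := by
  obtain ⟨C, C0, hC⟩ := c6 (Ω := ball 0 2) isBounded_ball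
  obtain ⟨δ, δ0, -, hδ⟩ := small (M := C * L ^ 3) (η := 1 / 2) (by positivity) (by norm_num)
  obtain ⟨ρ, ρ0, ρ1, hρ⟩ := small (M := 4 * L) (η := δ / 4) (by positivity) (by positivity)
  refine ⟨ρ, ρ0, fun Ω c r r0 r1 s w φ h a b => not_lt.1 fun hD => ?_⟩
  have k1 := thin h (I := {x | |x - c| < 3 / 2 * r}) (isOpen_lt (by fun_prop) continuous_const) w
  have k2 := interp h {p : E 3 | p 0 ∈ {x | |x - c| < 3 / 2 * r}} δ
  have k3 := integral_add_compl (s := {p : E 3 | 3 / 2 * r ≤ |p 0 - c|})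
    (isClosed_le continuous_const (by fun_prop)).measurableSet (int4 h)
  rw [show {p : E 3 | 3 / 2 * r ≤ |p 0 - c|}ᶜ = {p : E 3 | p 0 ∈ {x | |x - c| < 3 / 2 * r}} by
    ext; simp] at k3
  have D0 := Dt_nonneg φ
  have k4 : ∫ x, φ x ^ 6 ≤ C * L ^ 3 := (hC φ (h.mono s)).trans (by gcongr)
  have k5 : 4 * r ^ 2 * Dt φ ≤ ρ * (4 * L) := by
    have : r ^ 2 ≤ ρ := by nlinarith
    nlinarith
  nlinarith [mul_le_mul_of_nonneg_left k4 (sq_nonneg δ), mul_le_mul_of_nonneg_left hδ δ0.le]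

lemma tst (c : E 3) {r : ℝ} (r0 : 0 < r) : ∃ φ, Test (ball c r) φ ∧ 0 ≤ φ ∧ ∫ x, φ x ^ 4 = 1 := by
  let χ : ContDiffBump c := ⟨r / 4, r / 2, by positivity, by linarith⟩
  have h : Test (ball c r) χ := ⟨χ.contDiff, χ.hasCompactSupport, by
    rw [χ.tsupport_eq]; exact closedBall_subset_ball (by simp [χ, r0])⟩
  obtain ⟨a, a0, -, -, -, e⟩ := nrm h (Continuous.integral_pos_of_hasCompactSupport_nonneg_nonzero
    (x := c) (f := fun x => χ x ^ 4) (h.cont.pow 4) (h.2.1.comp_left (g := fun t : ℝ => t ^ 4) (by simp))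
    (fun x => by positivity) (by simp [χ.one_of_mem_closedBall (mem_closedBall_self χ.rIn_pos.le)])).ne'
  exact ⟨_, h.smul a, smul_nonneg a0.le χ.nonneg', e⟩

theorem barrier (c : ℝ) {r : ℝ} (r0 : 0 < r) : ∃ W > 0, ∀ Ω : Set (E 3), Ω ⊆ ball 0 2 →
    ball (EuclideanSpace.single 0 c) (r / 2) ⊆ Ω →
    (∀ p ∈ Ω, |p 0 - c| ∈ Ioo (3 / 4 * r) (3 / 2 * r) → |p 1| ≤ W) → ∀ L > 0,
    (∀ φ, Test Ω φ → ∫ x, φ x ^ 4 = 1 →
      ∫ p in {p : E 3 | 3 / 2 * r ≤ |p 0 - c|}, φ p ^ 4 ≤ 1 / 2 → L ≤ Dt φ) → Good Ω L := by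
  obtain ⟨C, C0, hC⟩ := c6 (Ω := ball 0 2) isBounded_ball
  obtain ⟨K, hK⟩ := exK
  have K0 : 0 ≤ K := (sq_nonneg _).trans (hK 0)
  obtain ⟨J0, -, hJ0, -⟩ := exists_J (N := 3) (Ω := ball 0 2) (by norm_num) isBounded_ball 4
    (by norm_num)
  obtain ⟨c₀, c0, hc, -⟩ := minimizer isBounded_ball hJ0
    (exists_test.imp fun φ h => ⟨h.1.mono (ball_subset_ball one_le_two), h.2⟩)
  obtain ⟨φ₀, t0, n0, a0⟩ := tst (EuclideanSpace.single 0 c) (half_pos r0)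
  have Λ0 := Dt_nonneg φ₀
  set Λ := Dt φ₀ + 1 with hΛ
  obtain ⟨e, e0, -, he⟩ := small (M := 512 * Λ + 256 * c₀ + c₀ ^ 2) (η := c₀) (by positivity) c0
  obtain ⟨δ, δ0, -, hδ⟩ := small (M := C * Λ ^ 4) (η := c₀ * e / 4) (by positivity) (by positivity)
  obtain ⟨W, W0, W1, hW⟩ := small (M := 16 * Λ ^ 2 / δ + 128 * K / r ^ 2 * Λ) (η := c₀ * e)
    (by positivity) (by positivity)
  have e1 : 128 * e ^ 2 ≤ 1 / 2 := by
    have : e * 256 ≤ 1 := le_of_mul_le_mul_right (by nlinarith [mul_pos e0 (mul_pos c0 c0)]) c0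
    nlinarith
  have e2 : c₀ * e ≤ 1 :=
    le_of_mul_le_mul_right (by nlinarith [mul_pos e0 c0]) c0
  have e3 : 128 * e ^ 2 * Λ ≤ c₀ * e / 4 := by
    nlinarith [mul_le_mul_of_nonneg_left he e0.le, mul_pos e0 (mul_pos e0 c0),
      mul_pos e0 (mul_pos e0 (mul_pos c0 c0))]
  refine ⟨W, W0, fun Ω s b w L L0 hL J hJ => ?_⟩
  set T := {p : E 3 | 3 / 2 * r ≤ |p 0 - c|} with hT
  have mT : MeasurableSet T := (isClosed_le continuous_const (by fun_prop)).measurableSet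
  set S := {d | ∃ φ, Test Ω φ ∧ 0 ≤ φ ∧ ∫ x, φ x ^ 4 = 1 ∧ (∀ p ∈ T, φ p = 0) ∧ d = Dt φ} with hS
  have bb : BddBelow S := ⟨0, by rintro _ ⟨φ, -, -, -, -, rfl⟩; exact Dt_nonneg φ⟩
  have m0 : Dt φ₀ ∈ S := ⟨φ₀, t0.mono b, n0, a0, fun p hp => (t0.zero_off fun h => by
    have := (PiLp.dist_apply_le p (EuclideanSpace.single 0 c) 0).trans_lt h
    simp only [PiLp.single_eq_same, Real.dist_eq] at this
    have : 3 / 2 * r ≤ |p 0 - c| := hp
    linarith).1, rfl⟩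
  have l0 : 0 ≤ sInf S := le_csInf ⟨_, m0⟩ fun _ ⟨φ, _, _, _, _, e⟩ => e ▸ Dt_nonneg φ
  have l1 := csInf_le bb m0
  refine locmin (isBounded_ball.subset s) hJ T (ε := 128 * e ^ 2) (m := sInf S + c₀ * e / 4)
    (by positivity) (by linarith) L0 ?_ (fun φ h n a b1 b2 => not_lt.1 fun hD => ?_)
    fun φ h a b => hL φ h a (b.trans e1)
  · obtain ⟨_, ⟨φ, h, n, a, z, rfl⟩, hφ⟩ := exists_lt_of_csInf_lt ⟨_, m0⟩
      (lt_add_of_pos_right (sInf S) (show 0 < c₀ * e / 4 by positivity))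
    refine ⟨φ, h, n, a, ?_, hφ⟩
    rw [setIntegral_eq_zero_of_forall_eq_zero fun p hp => by simp [z p hp]]
    positivity
  obtain ⟨f, g, hf, hg, nf, zf, k1, k2, k3, k4⟩ := loc2 h c r0 hK n
  have D0 := Dt_nonneg φ
  have D1 : Dt φ ≤ Λ := by linarith
  have k5 := thin h (I := {x | |x - c| ∈ Ioo (3 / 4 * r) (3 / 2 * r)})
    (isOpen_Ioo.preimage (f := fun x : ℝ => |x - c|) (by fun_prop)) w
  have k6 := interp h {p : E 3 | p 0 ∈ {x | |x - c| ∈ Ioo (3 / 4 * r) (3 / 2 * r)}} δ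
  have k7 : ∫ x, φ x ^ 6 ≤ C * Λ ^ 3 := (hC φ (h.mono s)).trans (by gcongr)
  have k8 : 4 * W ^ 2 * Dt φ ≤ 4 * W * Λ := by
    have : W ^ 2 ≤ W := by nlinarith
    nlinarith
  set τ := ∫ p in {p : E 3 | p 0 ∈ {x | |x - c| ∈ Ioo (3 / 4 * r) (3 / 2 * r)}}, φ p ^ 4
  set σ := ∫ p in {p : E 3 | p 0 ∈ {x | |x - c| ∈ Ioo (3 / 4 * r) (3 / 2 * r)}}, φ p ^ 2
  have τ0 : 0 ≤ τ := integral_nonneg fun _ => by positivity
  have g1 : c₀ * e ≤ Dt g := by
    refine le_trans ?_ (hc.sqrt c0.le (hg.mono s))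
    gcongr
    exact Real.le_sqrt_of_sq_le (by linarith)
  have f0 : 0 ≤ ∫ x, f x ^ 4 := integral_nonneg fun _ => by positivity
  have f1 : sInf S * ∫ x, f x ^ 4 ≤ Dt f := by
    rcases f0.eq_or_lt with h0 | h0
    · rw [← h0, mul_zero]; exact Dt_nonneg f
    obtain ⟨t, t0, t1, -, -, t4⟩ := nrm hf h0.ne'
    have := csInf_le bb ⟨t • f, hf.smul t, smul_nonneg t0.le nf, t4,
      fun p hp => by simp [zf p hp], rfl⟩
    rw [Dt_smul hf] at this
    refine le_trans (mul_le_mul_of_nonneg_left (Real.le_sqrt_of_sq_le (y := ∫ x, f x ^ 4)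
      (by rw [sq]; exact mul_le_of_le_one_left f0 (k1.trans_eq a))) l0)
      (le_of_mul_le_mul_left ?_ (pow_pos t0 2))
    rw [mul_left_comm, t1, mul_one]
    exact this
  have Λ1 : 0 < Λ := by linarith
  have q1 : 8 * K / r ^ 2 * σ ≤ W * (128 * K / r ^ 2 * Λ) / 4 :=
    (mul_le_mul_of_nonneg_left (k5.trans k8) (by positivity)).trans_eq (by ring)
  have q2 : τ * Λ ≤ W * (16 * Λ ^ 2 / δ) / 8 + c₀ * e / 8 := by
    refine le_of_mul_le_mul_left ?_ δ0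
    have : δ * (W * (16 * Λ ^ 2 / δ) / 8) = 2 * W * Λ ^ 2 := by field_simp; ring
    rw [mul_add δ (W * _ / 8), this]
    linarith [mul_le_mul_of_nonneg_left hδ δ0.le,
      mul_le_mul_of_nonneg_right (k6.trans (add_le_add (k5.trans k8)
        (mul_le_mul_of_nonneg_left k7 (sq_nonneg δ)))) Λ1.le]
  have q3 : 0 ≤ W * (16 * Λ ^ 2 / δ) := by positivity
  have q4 : sInf S * (128 * e ^ 2 + τ) ≤ Λ * (128 * e ^ 2 + τ) :=
    mul_le_mul_of_nonneg_right (by linarith) (by positivity)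
  have q5 : sInf S * (1 - (128 * e ^ 2 + τ)) ≤ sInf S * ∫ x, f x ^ 4 :=
    mul_le_mul_of_nonneg_left (by linarith) l0
  linarith [mul_pos c0 e0]

end Pool.Agent.H.MP_21f5b8_an
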