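import Pool.Agent.H.MP_21f5b8_an.B

set_option linter.unusedSectionVars false
set_option linter.dupNamespace false

namespace Pool.Agent.H.MP_21f5b8_an

open MeasureTheory Filter Topology Set Metric Pool.Agent.Lib.helper10.H10 Pool.Agent.H.MP_eb4995_an
open scoped ENNReal NNReal

def tube (s w : ℝ) : Set (E 3) := {p | p 0 ∈ Ioo (s / 2) 1} ∩ ({p | |p 1| < w} ∩ {p | |p 2| < w})

lemma tube_o (s w : ℝ) : IsOpen (tube s w) :=
  (isOpen_Ioo.preimage (f := fun p : E 3 => p 0) (by fun_prop)).inter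
    ((isOpen_lt (by fun_prop) continuous_const).inter (isOpen_lt (by fun_prop) continuous_const))

lemma tube_c (s w : ℝ) : Convex ℝ (tube s w) := by
  have k : ∀ (i : Fin 3) (a b : ℝ), Convex ℝ {p : E 3 | p i ∈ Ioo a b} := fun i a b =>
    (convex_Ioo a b).linear_preimage (EuclideanSpace.proj (𝕜 := ℝ) i : E 3 →L[ℝ] ℝ).toLinearMap
  simp only [tube, abs_lt]
  exact (k 0 _ _).inter ((k 1 _ _).inter (k 2 _ _))

theorem domain : ∃ Ω : Set (E 3), IsOpen Ω ∧ Bornology.IsBounded Ω ∧ IsConnected Ω ∧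
    ∀ L > 0, Good Ω L := by
  let s : ℕ → ℝ := fun j => (1 / 2) ^ j
  have s0 : ∀ j, 0 < s j := fun j => by positivity
  have s1 : ∀ j, s j ≤ 1 := fun j => pow_le_one₀ (by norm_num) (by norm_num)
  have s2 : ∀ i j, i < j → s j ≤ s i / 2 := fun i j h =>
    (pow_le_pow_of_le_one (by norm_num) (by norm_num) h).trans_eq (by simp only [s, pow_succ]; ring)
  choose W W0 hW using fun j => barrier (3 / 4 * s j) (r := s j / 8) (by linarith [s0 j])
  let w : ℕ → ℝ := fun j =>
    (Finset.range (j + 1)).inf' Finset.nonempty_range_add_one fun i => min (W i) (s i / 8)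
  have w0 : ∀ j, 0 < w j := fun j => (Finset.lt_inf'_iff _).2 fun i _ =>
    lt_min (W0 i) (by linarith [s0 i])
  have w1 : ∀ i j, i ≤ j → w j ≤ min (W i) (s i / 8) := fun i j h =>
    Finset.inf'_le _ (Finset.mem_range.2 (Nat.lt_succ_of_le h))
  let U : ℕ → Set (E 3) := fun j =>
    ball (EuclideanSpace.single 0 (3 / 4 * s j)) (s j / 8 / 2) ∪ tube (s j) (w j)
  have bl : ∀ j, ∀ p ∈ ball (EuclideanSpace.single 0 (3 / 4 * s j) : E 3) (s j / 8 / 2),
      |p 0 - 3 / 4 * s j| < s j / 8 / 2 ∧ |p 1| < s j / 8 / 2 := fun j p hp => by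
    have h0 := (PiLp.dist_apply_le p _ 0).trans_lt hp
    have h1 := (PiLp.dist_apply_le p _ 1).trans_lt hp
    simp [Real.dist_eq] at h0 h1
    exact ⟨h0, h1⟩
  have sub : (⋃ j, U j) ⊆ ball 0 2 := iUnion_subset fun j => union_subset
    (ball_subset_ball' (by
      have := s1 j
      have := s0 j
      simp only [dist_zero_right, PiLp.norm_single, Real.norm_eq_abs]
      rw [abs_of_pos (by positivity)]; linarith)) fun p ⟨h0, h1, h2⟩ => by
      have := (w1 0 j (Nat.zero_le _)).trans (min_le_right _ _)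
      have := s1 0
      have := s0 j
      have h1 := abs_lt.1 (show |p 1| < w j from h1)
      have h2 := abs_lt.1 (show |p 2| < w j from h2)
      rw [mem_ball_zero_iff, ← sq_lt_sq₀ (norm_nonneg _) two_pos.le,
        EuclideanSpace.real_norm_sq_eq, Fin.sum_univ_three]
      nlinarith [h0.1, h0.2, h1.1, h1.2, h2.1, h2.2]
  have slab : ∀ j, ∀ p ∈ ⋃ j, U j, |p 0 - 3 / 4 * s j| < 3 / 2 * (s j / 8) →
      p ∈ ball (EuclideanSpace.single 0 (3 / 4 * s j) : E 3) (s j / 8 / 2) ∨
        |p 1| ≤ min (W j) (s j / 8) := fun j p hp h => by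
    obtain ⟨i, hi | ⟨h0, h1, -⟩⟩ := mem_iUnion.1 hp
    · have := abs_lt.1 (bl i p hi).1
      have := abs_lt.1 h
      rcases lt_trichotomy i j with c | rfl | c
      · linarith [s2 i j c, s0 j, s0 i]
      · exact .inl hi
      · linarith [s2 j i c, s0 j, s0 i]
    · refine .inr ((le_of_lt h1).trans (w1 j i (not_lt.1 fun c => ?_)))
      linarith [s2 i j c, s0 j, h0.1, (abs_lt.1 h).2]
  have x0 : ∀ j (t : ℝ), s j / 2 < t → t < 1 → EuclideanSpace.single 0 t ∈ tube (s j) (w j) :=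
    fun j t h1 h2 => by simp [tube, w0 j, h1, h2]
  refine ⟨⋃ j, U j, isOpen_iUnion fun j => isOpen_ball.union (tube_o _ _),
    isBounded_ball.subset sub, ⟨⟨_, mem_iUnion.2 ⟨0, .inl (mem_ball_self (by norm_num [s]))⟩⟩,
      isPreconnected_iUnion ⟨EuclideanSpace.single 0 (7 / 8), mem_iInter.2 fun j =>
        .inr (x0 j _ (by linarith [s1 j]) (by norm_num))⟩ fun j => ?_⟩, fun L L0 => ?_⟩
  · exact IsPreconnected.union _ (mem_ball_self (by linarith [s0 j]))
      (x0 j _ (by linarith [s0 j]) (by linarith [s1 j])) (convex_ball _ _).isPreconnected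
      (tube_c _ _).isPreconnected
  obtain ⟨ρ, ρ0, hρ⟩ := low L0
  obtain ⟨j, hj⟩ := exists_pow_lt_of_lt_one ρ0 (show (1 / 2 : ℝ) < 1 by norm_num)
  have := s0 j
  refine hW j _ sub (subset_union_left.trans (subset_iUnion U j)) (fun p hp h => ?_) L L0
    (hρ _ _ _ (by linarith) (by linarith [show s j < ρ from hj]) sub fun p hp h => ?_)
  · exact (slab j p hp h.2).elim (fun c => by linarith [(bl j p c).1, h.1])
      fun c => c.trans (min_le_left _ _)
  · exact (slab j p hp h).elim (fun c => by linarith [(bl j p c).2])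
      fun c => c.trans (min_le_right _ _)

end Pool.Agent.H.MP_21f5b8_an
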